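import Pool.Agent.Helper31.CY.St2

/-!
# Project CY, module CTF: catenaries.
-/

set_option autoImplicit false

open Set Topology Filter

namespace Pool.Agent.Helper66.CY

open Pool.Agent.Helper31.CY

private theorem mvt (f f' : ℝ → ℝ) (hf : ∀ x, HasDerivAt f (f' x) x) (a b : ℝ) (hab : a < b) :
    ∃ ξ, a < ξ ∧ ξ < b ∧ f b - f a = f' ξ * (b - a) := by
  obtain ⟨c, hc, h⟩ := exists_hasDerivAt_eq_slope f f' hab
    (fun x _ => (hf x).continuousAt.continuousWithinAt) (fun x _ => hf x)
  refine ⟨c, hc.1, hc.2, ?_⟩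
  rw [h, div_mul_cancel₀]
  exact (sub_pos.mpr hab).ne'

private theorem cat_deriv (r m : ℝ) (hr : 0 < r) (τ : ℝ) : HasDerivAt (cat r m) (ct r m τ) τ := by
  have hw : 0 < Real.sqrt (1 + m ^ 2) := Real.sqrt_pos.mpr (by positivity)
  have h1 : HasDerivAt (fun τ : ℝ => τ * Real.sqrt (1 + m ^ 2) / r + Real.arsinh m)
      (1 * Real.sqrt (1 + m ^ 2) / r) τ :=
    (((hasDerivAt_id τ).mul_const (Real.sqrt (1 + m ^ 2))).div_const r).add_const (Real.arsinh m)
  have h2 := (h1.cosh).const_mul (r / Real.sqrt (1 + m ^ 2))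
  have h3 : r / Real.sqrt (1 + m ^ 2) * (Real.sinh (τ * Real.sqrt (1 + m ^ 2) / r + Real.arsinh m) *
      (1 * Real.sqrt (1 + m ^ 2) / r)) = ct r m τ := by
    unfold ct
    field_simp
  rw [h3] at h2
  exact h2

private theorem cat_zero (r m : ℝ) : cat r m 0 = r := by
  have hw : 0 < Real.sqrt (1 + m ^ 2) := Real.sqrt_pos.mpr (by positivity)
  unfold cat
  rw [zero_mul, zero_div, zero_add, Real.cosh_arsinh]
  field_simp

private theorem ct_zero (r m : ℝ) : ct r m 0 = m := by
  unfold ct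
  rw [zero_mul, zero_div, zero_add, Real.sinh_arsinh]

private theorem ct_mono (r m : ℝ) (hr : 0 < r) : StrictMono (ct r m) := by
  have hw : 0 < Real.sqrt (1 + m ^ 2) := Real.sqrt_pos.mpr (by positivity)
  intro x y hxy
  unfold ct
  rw [Real.sinh_lt_sinh]
  have : x * Real.sqrt (1 + m ^ 2) / r < y * Real.sqrt (1 + m ^ 2) / r := by gcongr
  linarith

private theorem ct_cont (r m : ℝ) : Continuous (ct r m) := by
  unfold ct
  exact Real.continuous_sinh.comp (by fun_prop)

theorem hCTF : StCTF := by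
  intro r m hr
  have hw : 0 < Real.sqrt (1 + m ^ 2) := Real.sqrt_pos.mpr (by positivity)
  refine ⟨cat_zero r m, ct_zero r m, ?_, cat_deriv r m hr, ct_mono r m hr, ct_cont r m, ?_, ?_, ?_, ?_⟩
  · intro τ
    have := Real.cosh_pos (τ * Real.sqrt (1 + m ^ 2) / r + Real.arsinh m)
    unfold cat
    positivity
  · intro τ σ
    have hE : ∃ E, E = τ * Real.sqrt (1 + m ^ 2) / r + Real.arsinh m := ⟨_, rfl⟩
    obtain ⟨E, hE⟩ := hE
    have e1 : cat r m τ = r / Real.sqrt (1 + m ^ 2) * Real.cosh E := by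
      unfold cat; rw [hE]
    have e2 : ct r m τ = Real.sinh E := by
      unfold ct; rw [hE]
    have e3 : Real.sqrt (1 + Real.sinh E ^ 2) = Real.cosh E := by
      rw [add_comm, ← Real.cosh_sq, Real.sqrt_sq (Real.cosh_pos E).le]
    rw [e1, e2]
    unfold cat
    rw [e3, Real.arsinh_sinh]
    have hc := Real.cosh_pos E
    have e4 : σ * Real.cosh E / (r / Real.sqrt (1 + m ^ 2) * Real.cosh E) = σ * Real.sqrt (1 + m ^ 2) / r := by
      field_simp
    have e5 : r / Real.sqrt (1 + m ^ 2) * Real.cosh E / Real.cosh E = r / Real.sqrt (1 + m ^ 2) := by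
      field_simp
    rw [e4, e5, hE]
    congr 2
    ring
  · intro τ
    unfold cat
    rw [show (-m) ^ 2 = m ^ 2 by ring, Real.arsinh_neg,
      show -τ * Real.sqrt (1 + m ^ 2) / r + -Real.arsinh m = -(τ * Real.sqrt (1 + m ^ 2) / r + Real.arsinh m) by ring,
      Real.cosh_neg]
  · intro τ hτ
    rcases lt_or_gt_of_ne hτ with h | h
    · obtain ⟨ξ, h1, h2, h3⟩ := mvt (cat r m) (ct r m) (cat_deriv r m hr) τ 0 h
      have h4 : ct r m ξ < m := by
        have := ct_mono r m hr h2
        rwa [ct_zero] at this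
      rw [cat_zero] at h3
      nlinarith
    · obtain ⟨ξ, h1, h2, h3⟩ := mvt (cat r m) (ct r m) (cat_deriv r m hr) 0 τ h
      have h4 : m < ct r m ξ := by
        have := ct_mono r m hr h1
        rwa [ct_zero] at this
      rw [cat_zero] at h3
      nlinarith
  · intro m' hm
    have h1 : ∀ᶠ τ in 𝓝 (0 : ℝ), ct r m τ < ct r m' τ := by
      have hc : ContinuousAt (fun τ => ct r m' τ - ct r m τ) 0 :=
        ((ct_cont r m').sub (ct_cont r m)).continuousAt
      have h2 : (0 : ℝ) < ct r m' 0 - ct r m 0 := by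
        rw [ct_zero, ct_zero]; linarith
      filter_upwards [hc.eventually_const_lt h2] with τ h3
      linarith
    rw [Metric.eventually_nhds_iff] at h1
    obtain ⟨ε, hε, h2⟩ := h1
    refine ⟨ε, hε, ?_⟩
    intro τ h0 hτ
    have hd : ∀ x, HasDerivAt (fun x => cat r m' x - cat r m x) (ct r m' x - ct r m x) x :=
      fun x => (cat_deriv r m' hr x).sub (cat_deriv r m hr x)
    constructor
    · obtain ⟨ξ, h3, h4, h5⟩ := mvt (fun x => cat r m' x - cat r m x) (fun x => ct r m' x - ct r m x) hd 0 τ h0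
      have h6 := h2 (y := ξ) (by rw [Real.dist_eq, sub_zero, abs_of_pos h3]; linarith)
      simp only [cat_zero] at h5
      have h7 : 0 < (ct r m' ξ - ct r m ξ) * (τ - 0) := mul_pos (by linarith) (by linarith)
      linarith
    · obtain ⟨ξ, h3, h4, h5⟩ := mvt (fun x => cat r m' x - cat r m x) (fun x => ct r m' x - ct r m x) hd (-τ) 0
        (by linarith)
      have h6 := h2 (y := ξ) (by rw [Real.dist_eq, sub_zero, abs_of_neg h4]; linarith)
      simp only [cat_zero] at h5
      have h7 : 0 < (ct r m' ξ - ct r m ξ) * (0 - -τ) := mul_pos (by linarith) (by linarith)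
      linarith

end Pool.Agent.Helper66.CY
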