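import Pool.Agent.Helper31.CY.St1

/-!
# Project CY, module CTN: catenary points.
-/

set_option autoImplicit false

open Set Topology Filter

namespace Pool.Agent.Helper66.CY

open Pool.Agent.Helper31.CY

private theorem const_on (f : ℝ → ℝ) (c ε : ℝ) (hε : 0 < ε) (hf : ∀ s, |s - c| < ε → HasDerivAt f 0 s) (s : ℝ)
    (hs : |s - c| < ε) : f s = f c := by
  have hI : ∀ x, x ∈ Ioo (c - ε) (c + ε) ↔ |x - c| < ε := by
    intro x
    rw [abs_lt, mem_Ioo]
    constructor
    · rintro ⟨h1, h2⟩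
      exact ⟨by linarith, by linarith⟩
    · rintro ⟨h1, h2⟩
      exact ⟨by linarith, by linarith⟩
  have h := Convex.norm_image_sub_le_of_norm_hasDerivWithin_le (f := f) (f' := fun _ => 0) (C := 0)
    (s := Ioo (c - ε) (c + ε)) (x := c) (y := s)
    (fun x hx => (hf x ((hI x).mp hx)).hasDerivWithinAt) (fun x _ => by simp) (convex_Ioo _ _)
    ((hI c).mpr (by simpa using hε)) ((hI s).mpr hs)
  rw [zero_mul] at h
  have h2 : ‖f s - f c‖ = 0 := le_antisymm h (norm_nonneg _)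
  exact sub_eq_zero.mp (norm_eq_zero.mp h2)

/-- the ordinary differential equation of the catenary -/
private theorem cat_ode (W W' W'' : ℝ → ℝ) (c ε : ℝ) (hε : 0 < ε) (hpos : ∀ s, |s - c| < ε → 0 < W s)
    (h1 : ∀ s, |s - c| < ε → HasDerivAt W (W' s) s) (h2 : ∀ s, |s - c| < ε → HasDerivAt W' (W'' s) s)
    (h3 : ∀ s, |s - c| < ε → W s * W'' s = 1 + W' s ^ 2) (s : ℝ) (hs : |s - c| < ε) :
    W s = cat (W c) (W' c) (s - c) := by
  have hc : |c - c| < ε := by simpa using hε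
  have hd1 : ∀ s, |s - c| < ε → HasDerivAt (fun s => W s ^ 2 / (1 + W' s ^ 2)) 0 s := by
    intro s hs
    have e1 : HasDerivAt (fun s => W s ^ 2) (2 * W s * W' s) s := by
      refine HasDerivAt.congr_deriv ((h1 s hs).pow 2) ?_
      simp
    have e2 : HasDerivAt (fun s => 1 + W' s ^ 2) (2 * W' s * W'' s) s := by
      refine HasDerivAt.congr_deriv (((h2 s hs).pow 2).const_add 1) ?_
      simp
    have e3 : 1 + W' s ^ 2 ≠ 0 := by positivity
    refine HasDerivAt.congr_deriv (e1.div e2 e3) ?_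
    have e4 : 2 * W s * W' s * (1 + W' s ^ 2) - W s ^ 2 * (2 * W' s * W'' s) = 0 := by
      linear_combination (-2 * W s * W' s) * h3 s hs
    rw [e4, zero_div]
  have hsq : ∀ s, |s - c| < ε → W s = W c / Real.sqrt (1 + W' c ^ 2) * Real.sqrt (1 + W' s ^ 2) := by
    intro s hs
    have e1 := const_on (fun s => W s ^ 2 / (1 + W' s ^ 2)) c ε hε hd1 s hs
    have p1 := hpos s hs
    have p2 := hpos c hc
    have q1 : 0 < 1 + W' s ^ 2 := by positivity
    have q2 : 0 < 1 + W' c ^ 2 := by positivity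
    have s1 : 0 < Real.sqrt (1 + W' s ^ 2) := Real.sqrt_pos.mpr q1
    have s2 : 0 < Real.sqrt (1 + W' c ^ 2) := Real.sqrt_pos.mpr q2
    have e2 : W s ^ 2 = (W c / Real.sqrt (1 + W' c ^ 2) * Real.sqrt (1 + W' s ^ 2)) ^ 2 := by
      rw [mul_pow, div_pow, Real.sq_sqrt q1.le, Real.sq_sqrt q2.le]
      rw [div_eq_iff q1.ne'] at e1
      exact e1
    have e3 : 0 ≤ W c / Real.sqrt (1 + W' c ^ 2) * Real.sqrt (1 + W' s ^ 2) := by positivity
    exact (pow_left_inj₀ p1.le e3 two_ne_zero).mp e2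
  have hd2 : ∀ s, |s - c| < ε → HasDerivAt (fun s => Real.arsinh (W' s) -
      (s - c) * Real.sqrt (1 + W' c ^ 2) / W c) 0 s := by
    intro s hs
    have p1 := hpos s hs
    have p2 := hpos c hc
    have q1 : 0 < 1 + W' s ^ 2 := by positivity
    have q2 : 0 < 1 + W' c ^ 2 := by positivity
    have s1 : 0 < Real.sqrt (1 + W' s ^ 2) := Real.sqrt_pos.mpr q1
    have s2 : 0 < Real.sqrt (1 + W' c ^ 2) := Real.sqrt_pos.mpr q2
    have e1 : HasDerivAt (fun s => Real.arsinh (W' s)) ((Real.sqrt (1 + W' s ^ 2))⁻¹ * W'' s) s := by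
      refine HasDerivAt.congr_deriv ((h2 s hs).arsinh) ?_
      simp
    have e2 : HasDerivAt (fun s => (s - c) * Real.sqrt (1 + W' c ^ 2) / W c)
        (1 * Real.sqrt (1 + W' c ^ 2) / W c) s :=
      (((hasDerivAt_id s).sub_const c).mul_const _).div_const _
    refine HasDerivAt.congr_deriv (e1.sub e2) ?_
    have e3 : W'' s = (1 + W' s ^ 2) / W s := by
      rw [eq_div_iff p1.ne']
      linarith [h3 s hs]
    have e4 : (1 : ℝ) + W' s ^ 2 = Real.sqrt (1 + W' s ^ 2) ^ 2 := (Real.sq_sqrt q1.le).symm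
    have e5 := hsq s hs
    rw [e3, e5]
    nth_rw 2 [e4]
    field_simp
    ring
  have e6 := const_on _ c ε hε hd2 s hs
  simp only [sub_self, zero_mul, zero_div, sub_zero] at e6
  have e7 : Real.arsinh (W' s) = (s - c) * Real.sqrt (1 + W' c ^ 2) / W c + Real.arsinh (W' c) := by linarith
  rw [hsq s hs]
  unfold cat
  rw [← e7, Real.cosh_arsinh]

theorem hCTN (hIMQ : StIMQ) : StCTN := by
  intro F V q hV hq hF hFq hD1 hq1 hP
  obtain ⟨W, W', W'', ε, hε, hWq, hbox, hW⟩ := hIMQ F V q hV hq hF hFq hD1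
  have hcq : |q.2 - q.2| < ε := by simpa using hε
  have hcont : ContinuousAt W q.2 := (hW q.2 hcq).2.2.1.continuousAt
  have hev : ∀ᶠ s in 𝓝 q.2, 0 < W s := by
    apply hcont.eventually_const_lt
    rw [hWq]; exact hq1
  rw [Metric.eventually_nhds_iff] at hev
  obtain ⟨ε', hε', h1⟩ := hev
  have hm : 0 < min ε ε' := lt_min hε hε'
  have key : ∀ s, |s - q.2| < min ε ε' → W s = cat (W q.2) (W' q.2) (s - q.2) := by
    apply cat_ode W W' W'' q.2 (min ε ε') hm
    · intro s hs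
      exact h1 (by rw [Real.dist_eq]; exact lt_of_lt_of_le hs (min_le_right _ _))
    · intro s hs
      exact (hW s (lt_of_lt_of_le hs (min_le_left _ _))).2.2.1
    · intro s hs
      exact (hW s (lt_of_lt_of_le hs (min_le_left _ _))).2.2.2.1
    · intro s hs
      obtain ⟨g1, g2, -, -, g3, g4, g5⟩ := hW s (lt_of_lt_of_le hs (min_le_left _ _))
      have g6 : 0 < W s := h1 (by rw [Real.dist_eq]; exact lt_of_lt_of_le hs (min_le_right _ _))
      have g7 := hP (W s, s) g1 g6 g2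
      unfold PODE at g7
      simp only at g7
      have g8 : D2 F (W s, s) = -(D1 F (W s, s) * W' s) := by linarith
      rw [g8] at g7
      have g9 : D1 F (W s, s) ^ 3 * (1 + W' s ^ 2 - W s * W'' s) = 0 := by
        linear_combination g7 - (W s * D1 F (W s, s) ^ 2) * g5
      have g10 := (mul_eq_zero.mp g9).resolve_left (pow_ne_zero 3 g3)
      linarith
  refine ⟨W' q.2, min ε ε', hm, ?_⟩
  intro x hx
  have hx' : x ∈ box q ε := ⟨lt_of_lt_of_le hx.1 (min_le_left _ _), lt_of_lt_of_le hx.2 (min_le_left _ _)⟩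
  obtain ⟨h2, h3⟩ := hbox x hx'
  refine ⟨h2, ?_⟩
  rw [h3, key x.2 hx.2, hWq]

end Pool.Agent.Helper66.CY
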