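import Pool.Agent.Helper31.CY.St1

/-!
# Project CY, module ROT: contingent cones of rotationally invariant sets.
-/

set_option autoImplicit false

open Set Topology Filter

namespace Pool.Agent.Helper66.CY

open Pool.Agent.Helper31.CY

private theorem pt_eq (a b c : ℝ) : pt a b c = a • bv 0 + b • bv 1 + c • bv 2 := by
  unfold pt bv
  ext i
  fin_cases i <;> simp

private theorem rot_eq (θ : ℝ) (x : E3) : rot θ x = (Real.cos θ * x 0 - Real.sin θ * x 1) • bv 0 +
    (Real.sin θ * x 0 + Real.cos θ * x 1) • bv 1 + x 2 • bv 2 := by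
  unfold rot
  exact pt_eq _ _ _

private theorem self_eq (x : E3) : x = x 0 • bv 0 + x 1 • bv 1 + x 2 • bv 2 := by
  unfold bv
  ext i
  fin_cases i <;> simp

private theorem coord_cont (i : Fin 3) : Continuous (fun x : E3 => x i) := by
  fun_prop

private theorem rot_cont (θ : ℝ) : Continuous (rot θ) := by
  have h : rot θ = fun x : E3 => (Real.cos θ * x 0 - Real.sin θ * x 1) • bv 0 +
    (Real.sin θ * x 0 + Real.cos θ * x 1) • bv 1 + x 2 • bv 2 := by
    funext x
    exact rot_eq θ x
  rw [h]
  have h0 := coord_cont 0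
  have h1 := coord_cont 1
  have h2 := coord_cont 2
  fun_prop

private theorem rot_sub (θ : ℝ) (x : E3) : rot θ x - x = ((Real.cos θ - 1) * x 0 - Real.sin θ * x 1) • bv 0 +
    (Real.sin θ * x 0 + (Real.cos θ - 1) * x 1) • bv 1 := by
  calc rot θ x - x = (Real.cos θ * x 0 - Real.sin θ * x 1) • bv 0 +
    (Real.sin θ * x 0 + Real.cos θ * x 1) • bv 1 + x 2 • bv 2 - (x 0 • bv 0 + x 1 • bv 1 + x 2 • bv 2) := by
        rw [rot_eq, ← self_eq x]
    _ = _ := by module

private theorem rot_lin (θ r : ℝ) (x p : E3) : rot θ (r • (x - p)) = r • (rot θ x - rot θ p) := by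
  rw [rot_eq, rot_eq, rot_eq]
  simp only [PiLp.smul_apply, PiLp.sub_apply, smul_eq_mul]
  module

private theorem tcn_top (S : Set E3) (p : E3) (hp : p ∈ S) (v : E3) (hv : v ∈ TCn S p) :
    ∃ (x : ℕ → E3) (t : ℕ → ℝ), (∀ n, x n ∈ S) ∧ (∀ n, 0 < t n) ∧ Tendsto x atTop (𝓝 p) ∧
      Tendsto (fun n => t n • (x n - p)) atTop (𝓝 v) ∧ Tendsto t atTop atTop := by
  by_cases h0 : v = 0
  · subst h0
    refine ⟨fun _ => p, fun n => (n : ℝ) + 1, fun _ => hp, fun n => by positivity, tendsto_const_nhds, ?_, ?_⟩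
    · simp
    · exact tendsto_atTop_add_const_right _ _ tendsto_natCast_atTop_atTop
  · obtain ⟨x, t, hx, ht, hxp, htv⟩ := hv
    refine ⟨x, t, hx, ht, hxp, htv, ?_⟩
    have hc : 0 < ‖v‖ := norm_pos_iff.mpr h0
    have h1 : Tendsto (fun n => ‖t n • (x n - p)‖) atTop (𝓝 ‖v‖) := htv.norm
    have h2 : Tendsto (fun n => ‖x n - p‖) atTop (𝓝 0) := by
      have := (hxp.sub_const p).norm
      simpa using this
    rw [tendsto_atTop]
    intro B
    have h3 : ∀ᶠ n in atTop, ‖v‖ / 2 < ‖t n • (x n - p)‖ := h1.eventually_const_lt (by linarith)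
    have h4 : ∀ᶠ n in atTop, ‖x n - p‖ < ‖v‖ / 2 / (|B| + 1) := h2.eventually_lt_const (by positivity)
    filter_upwards [h3, h4] with n h5 h6
    by_contra h7
    push Not at h7
    rw [norm_smul, Real.norm_eq_abs, abs_of_pos (ht n)] at h5
    have h8 : 0 < |B| + 1 := by positivity
    rw [lt_div_iff₀ h8] at h6
    have h9 : t n ≤ |B| + 1 := by linarith [le_abs_self B]
    have h10 : t n * ‖x n - p‖ ≤ (|B| + 1) * ‖x n - p‖ := mul_le_mul_of_nonneg_right h9 (norm_nonneg _)
    linarith

private theorem slope_lim (f : ℝ → ℝ) (f' : ℝ) (hf : HasDerivAt f f' 0) (t : ℕ → ℝ) (ht : ∀ n, 0 < t n)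
    (htt : Tendsto t atTop atTop) : Tendsto (fun n => t n * (f (1 / t n) - f 0)) atTop (𝓝 f') := by
  rw [hasDerivAt_iff_tendsto_slope_zero] at hf
  have h1 : Tendsto (fun n => 1 / t n) atTop (𝓝[≠] 0) := by
    rw [tendsto_nhdsWithin_iff]
    refine ⟨?_, Eventually.of_forall fun n => ?_⟩
    · refine (htt.inv_tendsto_atTop).congr fun n => ?_
      simp
    · have := ht n
      simp only [mem_compl_iff, mem_singleton_iff]
      positivity
  have h2 := hf.comp h1
  refine h2.congr fun n => ?_
  simp only [Function.comp_apply, zero_add, smul_eq_mul, one_div, inv_inv]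

theorem hROT : StROT := by
  intro S hS p hp
  constructor
  · intro v hv s
    obtain ⟨x, t, hx, ht, hxp, htv, htt⟩ := tcn_top S p hp v hv
    have hsin : Tendsto (fun n => t n * Real.sin (s / t n)) atTop (𝓝 s) := by
      have hd : HasDerivAt (fun τ : ℝ => Real.sin (s * τ)) s 0 := by
        have h1 : HasDerivAt (fun τ : ℝ => s * τ) s 0 := by simpa using (hasDerivAt_id (0 : ℝ)).const_mul s
        simpa using h1.sin
      refine (slope_lim _ _ hd t ht htt).congr fun n => ?_
      simp [div_eq_mul_inv]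
    have hcos : Tendsto (fun n => t n * (Real.cos (s / t n) - 1)) atTop (𝓝 0) := by
      have hd : HasDerivAt (fun τ : ℝ => Real.cos (s * τ)) 0 0 := by
        have h1 : HasDerivAt (fun τ : ℝ => s * τ) s 0 := by simpa using (hasDerivAt_id (0 : ℝ)).const_mul s
        simpa using h1.cos
      refine (slope_lim _ _ hd t ht htt).congr fun n => ?_
      simp [div_eq_mul_inv]
    have hx0 : Tendsto (fun n => x n 0) atTop (𝓝 (p 0)) := ((coord_cont 0).tendsto p).comp hxp
    have hx1 : Tendsto (fun n => x n 1) atTop (𝓝 (p 1)) := ((coord_cont 1).tendsto p).comp hxp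
    have hmain : Tendsto (fun n => t n • (rot (s / t n) (x n) - p)) atTop (𝓝 (v + s • Jv p)) := by
      have e1 : ∀ n, t n • (rot (s / t n) (x n) - p) = t n • (x n - p) +
          (((t n * (Real.cos (s / t n) - 1)) * x n 0 - (t n * Real.sin (s / t n)) * x n 1) • bv 0 +
          ((t n * Real.sin (s / t n)) * x n 0 + (t n * (Real.cos (s / t n) - 1)) * x n 1) • bv 1) := by
        intro n
        have e4 : rot (s / t n) (x n) - p = (x n - p) + (rot (s / t n) (x n) - x n) := by abel
        rw [e4, rot_sub]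
        module
      have e2 : v + s • Jv p = v + ((0 * p 0 - s * p 1) • bv 0 + (s * p 0 + 0 * p 1) • bv 1) := by
        unfold Jv
        rw [pt_eq]
        module
      rw [e2]
      refine Tendsto.congr (fun n => (e1 n).symm) ?_
      refine htv.add (Tendsto.add ?_ ?_)
      · exact Tendsto.smul_const ((hcos.mul hx0).sub (hsin.mul hx1)) _
      · exact Tendsto.smul_const ((hsin.mul hx0).add (hcos.mul hx1)) _
    refine ⟨fun n => rot (s / t n) (x n), t, fun n => hS _ _ (hx n), ht, ?_, hmain⟩
    have e3 : ∀ n, rot (s / t n) (x n) = p + (t n)⁻¹ • (t n • (rot (s / t n) (x n) - p)) := by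
      intro n
      rw [smul_smul, inv_mul_cancel₀ (ht n).ne', one_smul]
      abel
    refine Tendsto.congr (fun n => (e3 n).symm) ?_
    have h1 := htt.inv_tendsto_atTop.smul hmain
    rw [zero_smul] at h1
    simpa using tendsto_const_nhds.add h1
  · intro h0 h1 v hv θ
    obtain ⟨x, t, hx, ht, hxp, htv⟩ := hv
    have hrp : rot θ p = p := by
      have h2 := rot_sub θ p
      rw [h0, h1] at h2
      simpa [sub_eq_zero] using h2
    refine ⟨fun n => rot θ (x n), t, fun n => hS _ _ (hx n), ht, ?_, ?_⟩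
    · have := ((rot_cont θ).tendsto p).comp hxp
      rw [hrp] at this
      exact this
    · have h2 := ((rot_cont θ).tendsto v).comp htv
      refine h2.congr fun n => ?_
      simp only [Function.comp_apply]
      rw [rot_lin, hrp]

end Pool.Agent.Helper66.CY
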